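import Pool.Agent.V1198.GdMeas

/-!
# MP_d104cf_an, Q1: `G_δ` points of `P(K)`, `K` sick, are analytic measures
-/

set_option autoImplicit false

namespace Pool.Agent.Results.MP_d104cf_an.Analytic

open Pool.Agent.V1198.BL Pool.Agent.V1198.SK MeasureTheory

/-- **Theorem.** Let `K` be a sick compact Hausdorff space and let `μ` be a regular Borel
probability measure on `K` which is a `G_δ` point of the space `P(K)` of regular Borel probability
measures. Then `L₁(μ)` is separable and the image of `C(K)` in `L₁(μ)` is an analytic set. -/
theorem result : ∀ (K : Type) [TopologicalSpace K] [CompactSpace K] [T2Space K]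
    [MeasurableSpace K] [BorelSpace K], Sick1 K →
    ∀ μ : PK K, IsGδ ({μ} : Set (PK K)) → IsAnalyticMeasure (μ.1 : Measure K) := by
  intro K _ _ _ _ _ hK μ h
  exact analytic_of_gdelta hK h

end Pool.Agent.Results.MP_d104cf_an.Analytic
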